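import Pool.Agent.Helper64.PQ.Goals

/-!
# Project PQ, goal A3: the order on the deep elements between two points
-/

set_option autoImplicit false

namespace Pool.Agent.Helper65.PQ

open Pool.Agent.Helper64.PQ

section
variable {X : Type} {t : ℕ} {d : X → X → X → ℕ} {E : X → X → X → Prop} {D : X → X → X → ℕ}

lemma ne_of_mem (hE : Exact t d E D) {y z x : X} (hx : x ∈ HH t D y z) : y ≠ z := by
  rintro rfl
  obtain ⟨h1, _, h3⟩ := hx
  have := hE.near x y y h1.symm h1.symm (hE.erefl x y)
  omega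

lemma three (hE : Exact t d E D) {y z x x' : X} (hx : x ∈ HH t D y z) (hx' : x' ∈ HH t D y z)
    (hn : x ≠ x') : E x x' z ∨ E x' x z := by
  obtain ⟨h1, h2, h3⟩ := hx
  obtain ⟨h1', h2', h3'⟩ := hx'
  have ht := hE.dtri x y x' z h1.symm hn.symm h2.symm
  have hc : 8 * t < D x y x' ∨ 8 * t < D x x' z := by omega
  rcases hc with hc | hc
  · left
    have e1 : E x' x y := by
      apply hE.strong x x' y hn h1' h1
      rw [hE.dsymm x x' y hn.symm h1.symm]
      exact hc
    have e2 := hE.dcongr x' x y z hn h1'.symm h2'.symm e1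
    apply hE.strong x' x z hn.symm h2 h2'
    omega
  · right
    exact hE.strong x x' z hn h2' h2 hc

lemma five (hE : Exact t d E D) {y z x x' : X} (hx : x ∈ HH t D y z) (hx' : x' ∈ HH t D y z)
    (hn : x ≠ x') : E x x' z ↔ E x' x y := by
  obtain ⟨h1, h2, h3⟩ := hx
  obtain ⟨h1', h2', h3'⟩ := hx'
  constructor
  · intro h
    have e1 := hE.dcongr x x' z y hn.symm h2.symm h1.symm h
    have e2 := hE.dsymm x z y h2.symm h1.symm
    apply hE.strong x x' y hn h1' h1
    omega
  · intro h
    have e1 := hE.dcongr x' x y z hn h1'.symm h2'.symm h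
    apply hE.strong x' x z hn.symm h2 h2'
    omega

lemma not_same (hE : Exact t d E D) {y z x : X} (hx : x ∈ HH t D y z) : ¬ E x y z := by
  obtain ⟨h1, h2, h3⟩ := hx
  intro h
  have := hE.near x y z h1.symm h2.symm h
  omega

lemma four (hE : Exact t d E D) {y z x x' : X} (hx : x ∈ HH t D y z) (hx' : x' ∈ HH t D y z)
    (hn : x ≠ x') (h : E x x' z) : ¬ E x' x z := by
  intro h'
  have h5 := (five hE hx hx' hn).1 h
  exact not_same hE hx' (hE.etrans x' y x z (hE.esymm x' x y h5) h')

lemma six (hE : Exact t d E D) {y z x x' x'' : X} (hx : x ∈ HH t D y z)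
    (hx' : x' ∈ HH t D y z) (hx'' : x'' ∈ HH t D y z) (hn : x ≠ x') (hn' : x' ≠ x'')
    (hn'' : x ≠ x'') (h : E x x' z) (h' : E x' x'' z) : E x x'' z := by
  by_contra hc
  have h3 : E x'' x z := (three hE hx hx'' hn'').resolve_left hc
  have h5 : E x x'' y := (five hE hx'' hx hn''.symm).1 h3
  have h5' : E x' x y := (five hE hx hx' hn).1 h
  have hD : 32 * t < D x x' x'' := by
    have e1 := hE.dcongr x x'' y x' hn''.symm hx.1.symm hn.symm h5
    have e2 := hE.dcongr x x' z y hn.symm hx.2.1.symm hx.1.symm h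
    have e3 := hE.dsymm x z y hx.2.1.symm hx.1.symm
    have e4 := hE.dsymm x x' y hn.symm hx.1.symm
    have e5 := hE.dsymm x x' x'' hn.symm hn''.symm
    have e6 := hx.2.2
    omega
  have h6 : E x' x x'' := hE.strong x x' x'' hn hn' hn'' (by omega)
  have h7 : E x' x'' y := hE.etrans x' x'' x y (hE.esymm _ _ _ h6) h5'
  exact not_same hE hx' (hE.etrans x' y x'' z (hE.esymm _ _ _ h7) h')

end

theorem goalA3 : GoalA3 := by
  intro X t d E D hP hE y z
  refine ⟨?_, ?_, ?_, ?_, ?_, ?_⟩
  · refine (hP.fin y z).subset ?_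
    rintro x ⟨h1, h2, h3⟩
    refine ⟨h1, h2, ?_⟩
    have := (hE.le x y z h1.symm h2.symm).2
    have := hP.pos
    omega
  · ext x
    constructor
    · rintro ⟨h1, h2, h3⟩
      refine ⟨h2, h1, ?_⟩
      rw [hE.dsymm x y z h2.symm h1.symm]
      exact h3
    · rintro ⟨h1, h2, h3⟩
      refine ⟨h2, h1, ?_⟩
      rw [hE.dsymm x z y h2.symm h1.symm]
      exact h3
  · intro x hx x' hx' hn
    exact three hE hx hx' hn
  · intro x hx x' hx' hn h
    exact four hE hx hx' hn h
  · intro x hx x' hx' hn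
    exact five hE hx hx' hn
  · intro x hx x' hx' x'' hx'' hn hn' hn'' h h'
    exact six hE hx hx' hx'' hn hn' hn'' h h'

end Pool.Agent.Helper65.PQ
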